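import Pool.Agent.helper34.DT.Spec

/-!
# Project dt, module AE: functionals on forms
-/

set_option autoImplicit false

namespace Pool.Agent.HC.DT

open Pool.Agent.HC

/-- evaluation of forms at tuples of members of a family -/
noncomputable def AE_ev {V ι : Type} [AddCommGroup V] [Module ℝ V] (b : ι → V) (n : ℕ) :
    (V [⋀^Fin n]→ₗ[ℝ] ℝ) →ₗ[ℝ] ((Fin n → ι) → ℝ) where
  toFun η c := η (fun j => b (c j))
  map_add' η η' := by
    funext c
    rfl
  map_smul' r η := by
    funext c
    rfl

theorem AE : AE_stmt := by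
  intro V _ _ _ S hS n ξ
  obtain ⟨b, hb⟩ : ∃ b : Module.Basis ((linearIndepOn_empty ℝ id).extend (Set.empty_subset S)) ℝ V,
      Set.range b ⊆ S := ⟨Module.Basis.ofSpan hS.ge, Module.Basis.ofSpan_subset hS.ge⟩
  haveI : Fintype ((linearIndepOn_empty ℝ id).extend (Set.empty_subset S)) :=
    @Fintype.ofFinite _ (Module.Finite.finite_basis b)
  have hinj : LinearMap.ker (AE_ev (b : _ → V) n) = ⊥ := by
    rw [LinearMap.ker_eq_bot]
    intro η η' h
    refine Module.Basis.ext_alternating b fun c _ => ?_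
    exact congrFun h c
  obtain ⟨g, hg⟩ := LinearMap.exists_leftInverse_of_injective (AE_ev (b : _ → V) n) hinj
  classical
  let e := (Fintype.equivFin (Fin n → ((linearIndepOn_empty ℝ id).extend (Set.empty_subset S))))
  refine ⟨Fintype.card (Fin n → ((linearIndepOn_empty ℝ id).extend (Set.empty_subset S))),
    fun i => ξ (g (Pi.single (e.symm i) 1)), fun i j => b (e.symm i j),
    fun i j => hb (Set.mem_range_self _), fun η => ?_⟩
  have h1 : ξ η = ξ (g (AE_ev (b : _ → V) n η)) := by
    have : g (AE_ev (b : _ → V) n η) = η := LinearMap.congr_fun hg η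
    rw [this]
  rw [h1]
  have h2 : AE_ev (b : _ → V) n η = ∑ c, (AE_ev (b : _ → V) n η c) • (Pi.single c (1 : ℝ)) := by
    funext c
    rw [Finset.sum_apply]
    rw [Finset.sum_eq_single c]
    · simp
    · intro c' _ hc'
      rw [Pi.smul_apply, Pi.single_eq_of_ne (Ne.symm hc'), smul_zero]
    · intro h
      exact absurd (Finset.mem_univ c) h
  rw [h2, map_sum, map_sum, ← Equiv.sum_comp e.symm]
  refine Finset.sum_congr rfl fun i _ => ?_
  rw [map_smul, map_smul, smul_eq_mul, mul_comm]
  rfl

end Pool.Agent.HC.DT
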