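import Pool.Agent.helper34.DT.Spec

/-!
# Project dt, module BA: conjugation by exponentials
-/

set_option autoImplicit false

namespace Pool.Agent.HC.DT

open Pool.Agent.HC

/-- the derivation by a conjugate endomorphism -/
theorem BA_der {V : Type} [AddCommGroup V] [Module ℝ V] {n : ℕ} (T X T' : V →ₗ[ℝ] V)
    (hT : ∀ v, T (T' v) = v) (η : V [⋀^Fin n]→ₗ[ℝ] ℝ) :
    der (T ∘ₗ X ∘ₗ T') η = (der X (η.compLinearMap T)).compLinearMap T' := by
  ext v
  rw [der_apply, AlternatingMap.compLinearMap_apply, der_apply]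
  refine Finset.sum_congr rfl fun j _ => ?_
  rw [AlternatingMap.compLinearMap_apply]
  congr 1
  funext i
  by_cases h : i = j
  · subst h
    rw [Function.update_self, Function.update_self]
    rfl
  · rw [Function.update_of_ne h, Function.update_of_ne h]
    exact (hT (v i)).symm

theorem BA (hBX : BX_stmt) (hBP : BP_stmt) : BA_stmt := by
  intro W _ _ _ Lam ψ Y hY X hX
  have : FiniteDimensional ℝ W := FiniteDimensional.complexToReal W
  have : CompleteSpace W := FiniteDimensional.complete ℝ W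
  letI : NormedAlgebra ℚ (W →L[ℝ] W) := NormedAlgebra.restrictScalars ℚ ℝ (W →L[ℝ] W)
  have hinv : (NormedSpace.exp Y : W →L[ℝ] W) * NormedSpace.exp (-Y) = 1 := by
    rw [← NormedSpace.exp_add_of_commute (Commute.refl Y).neg_right, add_neg_cancel,
      NormedSpace.exp_zero]
  have hTT : ∀ v : W, (NormedSpace.exp Y : W →L[ℝ] W) ((NormedSpace.exp (-Y) : W →L[ℝ] W) v) = v := by
    intro v
    have := congrArg (fun f : W →L[ℝ] W => f v) hinv
    exact this
  have hYn : -Y ∈ lieAlg Lam ψ := (lieAlg Lam ψ).neg_mem hY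
  refine ⟨fun v w => ?_, fun k a ξ hξ η => ?_⟩
  · obtain ⟨v', hv'⟩ : ∃ v' : W, v' = (NormedSpace.exp (-Y) : W →L[ℝ] W) v := ⟨_, rfl⟩
    obtain ⟨w', hw'⟩ : ∃ w' : W, w' = (NormedSpace.exp (-Y) : W →L[ℝ] W) w := ⟨_, rfl⟩
    have h1 : (NormedSpace.exp Y * X * NormedSpace.exp (-Y) : W →L[ℝ] W) v =
        (NormedSpace.exp Y : W →L[ℝ] W) (X v') := by
      rw [hv']
      rfl
    have h2 : (NormedSpace.exp Y * X * NormedSpace.exp (-Y) : W →L[ℝ] W) w =
        (NormedSpace.exp Y : W →L[ℝ] W) (X w') := by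
      rw [hw']
      rfl
    have h3 : v = (NormedSpace.exp Y : W →L[ℝ] W) v' := by rw [hv', hTT]
    have h4 : w = (NormedSpace.exp Y : W →L[ℝ] W) w' := by rw [hw', hTT]
    rw [h1, h2]
    conv_lhs => rw [h3, h4]
    rw [hBP W ψ Y hY.1, hBP W ψ Y hY.1]
    exact hX.1 v' w'
  · have h1 : powMap k ((NormedSpace.exp Y * X * NormedSpace.exp (-Y) : W →L[ℝ] W) : W →ₗ[ℝ] W) =
        powMap k ((NormedSpace.exp Y : W →L[ℝ] W) : W →ₗ[ℝ] W) ∘ₗ powMap k (X : W →ₗ[ℝ] W) ∘ₗ
          powMap k ((NormedSpace.exp (-Y) : W →L[ℝ] W) : W →ₗ[ℝ] W) := by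
      ext v i
      rfl
    rw [h1, BA_der _ _ _ (fun v => ?_) η]
    · rw [hBX W (-Y) k (2 * a) ξ (hYn.2 k a ξ hξ)]
      exact hX.2 k a ξ hξ _
    · funext i
      rw [powMap_apply, powMap_apply]
      exact hTT (v i)

end Pool.Agent.HC.DT
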